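import Mathlib

namespace Pool.Agent.Results.MP_df609a_nt.TwoPrimes

open Finset

/-- The sum of the positive divisors. -/
def sig (n : ℕ) : ℕ := ∑ d ∈ n.divisors, d

theorem sig_eq {p q : ℕ} (hp : p.Prime) (hq : q.Prime) (hpq : p ≠ q) (a b : ℕ) :
    sig (p ^ a * q ^ b) = (∑ i ∈ range (a + 1), p ^ i) * ∑ j ∈ range (b + 1), q ^ j := by
  rw [sig, ← ArithmeticFunction.sigma_one_apply, ArithmeticFunction.isMultiplicative_sigma.map_mul_of_coprime
    (Nat.Coprime.pow a b ((Nat.coprime_primes hp hq).2 hpq)),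
    ArithmeticFunction.sigma_one_apply_prime_pow hp, ArithmeticFunction.sigma_one_apply_prime_pow hq]

theorem bound (t p a : ℕ) (h : t + 1 ≤ p) :
    t * ∑ i ∈ range (a + 1), p ^ i < (t + 1) * p ^ a := by
  obtain ⟨c, rfl⟩ := Nat.exists_eq_add_of_le h
  have h1 := geom_sum_mul_add (t + c) (a + 1)
  rw [show t + c + 1 = t + 1 + c by ring, pow_succ] at h1
  have h3 : (t + 1 + c) ^ a ≤ ∑ i ∈ range (a + 1), (t + 1 + c) ^ i :=
    single_le_sum (f := fun i => (t + 1 + c) ^ i) (fun _ _ => Nat.zero_le _) (by simp)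
  nlinarith [Nat.mul_le_mul_left c h3]

theorem not5 {p : ℕ} (hp : p.Prime) (n : ℕ) : ∑ i ∈ range n, p ^ i ≠ 5 := by
  rcases n with _ | _ | n
  · simp
  · simp
  · intro h
    rw [sum_range_succ', sum_range_succ'] at h
    obtain ⟨R, hR⟩ : p ^ 2 ∣ ∑ i ∈ range n, p ^ (i + 1 + 1) :=
      dvd_sum fun i _ => pow_dvd_pow p (by omega)
    rw [hR] at h
    simp only [zero_add, pow_one, pow_zero] at h
    have h2 := hp.two_le
    have h4 : p ≤ 4 := by omega
    interval_cases p
    · omega
    · omega
    · exact absurd hp (by norm_num)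

theorem pos {p : ℕ} (n : ℕ) : 1 ≤ ∑ i ∈ range (n + 1), p ^ i := by
  rw [sum_range_succ']; simp

theorem result (p q a b : ℕ) (hp : p.Prime) (hq : q.Prime) (hpq : p ≠ q) :
    sig (p ^ a * q ^ b) % (p ^ a * q ^ b) ≠ 5 := by
  wlog hlt : p < q generalizing p q a b
  · rw [mul_comm]
    exact this q p b a hq hp hpq.symm (by omega)
  intro h
  have h2 := hp.two_le
  have x0 : 0 < p ^ a * q ^ b := Nat.mul_pos (pow_pos hp.pos _) (pow_pos hq.pos _)
  have x5 : 5 < p ^ a * q ^ b := h ▸ Nat.mod_lt _ x0
  have hd := Nat.div_add_mod (sig (p ^ a * q ^ b)) (p ^ a * q ^ b)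
  rw [h] at hd
  generalize sig (p ^ a * q ^ b) / (p ^ a * q ^ b) = k at hd
  rw [sig_eq hp hq hpq] at hd
  have b3 := Nat.mul_lt_mul'' (bound 1 p a (by omega)) (bound 2 q b (by omega))
  rw [mul_mul_mul_comm, mul_mul_mul_comm (1 + 1), ← hd] at b3
  have k3 : k < 3 := by
    by_contra hh
    have := Nat.mul_le_mul_left (p ^ a * q ^ b) (not_lt.1 hh)
    omega
  interval_cases k
  · rw [sum_range_succ, sum_range_succ] at hd
    nlinarith [Nat.zero_le ((∑ i ∈ range a, p ^ i) * ∑ j ∈ range b, q ^ j),
      Nat.zero_le ((∑ i ∈ range a, p ^ i) * q ^ b), Nat.zero_le (p ^ a * ∑ j ∈ range b, q ^ j)]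
  · rw [sum_range_succ, sum_range_succ] at hd
    rcases a with _ | a
    · apply not5 hq b
      simp only [range_zero, sum_empty, pow_zero, zero_add, one_mul, mul_one] at hd
      omega
    rcases b with _ | b
    · apply not5 hp (a + 1)
      simp only [range_zero, sum_empty, pow_zero, zero_add, one_mul, mul_one] at hd
      omega
    have l1 := pos (p := p) a
    have l2 := pos (p := q) b
    have l3 : p ≤ p ^ (a + 1) := Nat.le_self_pow (by omega) p
    have l4 : q ≤ q ^ (b + 1) := Nat.le_self_pow (by omega) q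
    nlinarith [Nat.mul_le_mul l1 l2, Nat.mul_le_mul l1 l4, Nat.mul_le_mul l3 l2]
  · by_cases e2 : p = 2
    · subst e2
      have g := geom_sum_mul_add 1 (a + 1)
      norm_num only [mul_one] at g
      generalize ∑ i ∈ range (a + 1), 2 ^ i = S at hd g
      clear b3
      rcases b with _ | c
      · simp only [zero_add, range_one, sum_singleton, pow_zero, mul_one] at hd
        rw [pow_succ] at g
        omega
      have e : ∑ j ∈ range (c + 1 + 1), q ^ j = q * (∑ j ∈ range (c + 1), q ^ j) + 1 := by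
        rw [sum_range_succ', mul_sum]; simp [pow_succ']
      have e' := sum_range_succ (fun j => q ^ j) (c + 1)
      have k1 : 2 ^ a * 2 * ∑ j ∈ range (c + 1), q ^ j = q * (∑ j ∈ range (c + 1), q ^ j) + 6 := by
        generalize ∑ j ∈ range (c + 1), q ^ j = R at *
        generalize ∑ j ∈ range (c + 1 + 1), q ^ j = T at *
        rw [pow_succ 2 a] at g
        zify at *
        linear_combination -hd + e - (T : ℤ) * g - 2 ^ a * 2 * e'
      have hdv : ∑ j ∈ range (c + 1), q ^ j ∣ 6 :=
        (Nat.dvd_add_right (Dvd.intro_left q rfl)).1 (k1 ▸ Dvd.intro_left _ rfl)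
      have l1 := Nat.le_of_dvd (by norm_num) hdv
      have ho := Nat.odd_iff.1 (hq.odd_of_ne_two (by omega))
      rcases c with _ | _ | c
      · simp only [zero_add, range_one, sum_singleton, pow_zero, mul_one] at k1
        omega
      · simp only [zero_add, sum_range_succ, range_zero, sum_empty, pow_zero, pow_one] at k1 l1
        have : q = 3 ∨ q = 5 := by omega
        rcases this with rfl | rfl
        · omega
        · rcases a with _ | a
          · omega
          · rw [pow_succ] at k1; omega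
      · have l2 : q ^ 2 ≤ ∑ j ∈ range (c + 1 + 1 + 1), q ^ j :=
          single_le_sum (f := fun j => q ^ j) (fun _ _ => Nat.zero_le _) (by simp)
        nlinarith
    · have hq5 : 5 ≤ q := by
        by_contra hh
        obtain rfl : q = 4 := by omega
        exact absurd hq (by norm_num)
      have b4 := Nat.mul_lt_mul'' (bound 2 p a (by omega)) (bound 4 q b hq5)
      rw [mul_mul_mul_comm, mul_mul_mul_comm (2 + 1), ← hd] at b4
      omega

end Pool.Agent.Results.MP_df609a_nt.TwoPrimes
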